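import Pool.Agent.N733.TG.K
import Pool.Agent.Results.MP_8865d3_nt.MonomialWindows

/-!
# Vojta's conjecture with multiplier ideals above the points of heights near the values of multiplicative functions

Let `f` be a positive multiplicative function of at most polynomial growth such that `f p ≤ M p` for the large primes `p`,
with different values at different large primes; for example Euler's function or the sum of the divisors. Let
`a_0, …, a_{q-1}` be linear forms in `n + 1` variables over a number field `K`, any `n + 1` of them linearly independent, and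
`κ ≥ 0`. Let `α > 0`, `d ≥ 1`, `θ ≥ 0` and `d exponent(n, q, κ) / (n + 1) + θ < 1`. For every `c`, for all `k ≤ N` but
`N / (log N)^U`, for ALL points `x ∈ ℙ^n(K)` off the hyperplanes with `|H_K(x) ^ (n + 1) - α f(k)^d| ≤ f(k)^θ`, ALL `m ≥ 1`,
ALL points `P` above `x` of the Fermat intersection `X_m`, ALL monomial ideals `I` and ALL finite sets `S` of primes
`(κ m - q) h(P) + ∑_{v ∈ S ∪ {∞}} (λ_I - λ_{I⁻})(P, v) ≤ d(L) + ∑_{p ∈ S} log p - c`.
More generally `G (f k)` takes the place of `α f(k)^d`, where `G` is any function with steps bounded below by a positive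
constant and growth at most `v^d`. The values of `f` are in general taken with very large multiplicities, and so this does not
follow from the size of the exceptional set.

Proof. Write `k = u w` where `u` is composed of the primes `≤ z = N^(1 / J)`, `J` about `log log N`. For most `k` one has
`u ≤ N^η`, and `w` is a product of at most `J` different primes. So `f(w)` is taken at most `(1 + τ)^J` times, `τ` its number of
divisors, which is at most `N^o(1)` on average, even in mean square: and the exceptional set has only `N^(1 - δ)` elements. Its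
size is bounded by the starting theorem `MonomialIdeals` of this problem.
-/

set_option autoImplicit false

namespace Pool.Agent.Results.MP_8865d3_nt.MultiplicativeValues

open NumberField IsDedekindDomain LinearAlgebra.Projectivization
open Pool.Agent.N733.TG (LM Expanding lm_totient lm_sigma keep_good expanding_pow)
open MonomialIdeals (lin baseHeight height proximity logDisc exponent exceptional)

/-- `x` satisfies, for ALL `m ≥ 1`, ALL points `P = (y_i)` above `x` of `X_m`, over any number field `L` which contains `K`,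
ALL monomial ideals `I` and ALL finite sets `S` of primes, the inequality
`(κ m - q) h(P) + ∑_{v ∈ S ∪ {∞}} (λ_I - λ_{I⁻})(P, v) ≤ d(L) + ∑_{p ∈ S} log p - c` -/
def AllAbove {K : Type} [Field K] [NumberField K] {n q : ℕ} (a : Fin q → Fin (n + 1) → K) (κ c : ℝ)
    (x : ℙ K (Fin (n + 1) → K)) : Prop :=
  ∀ (m : ℕ) (L : Type) [Field L] [NumberField L] [Algebra K L] (y : Fin q → L) (t : L)
    (I : Finset (Fin q → ℕ)) (S : Finset ℕ), 1 ≤ m → t ≠ 0 →
    (∀ i, y i ^ m = t * algebraMap K L (lin (a i) x.rep)) → I.Nonempty → (∀ p ∈ S, p.Prime) →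
      (κ * m - q) * height y + proximity S y I ≤ logDisc L + ∑ p ∈ S, Real.log p - c

/-- **Vojta's conjecture with multiplier ideals near the values of multiplicative functions.** Let `K` be a number field,
`n ≥ 1`, `q ≥ n + 1`, `a_0, …, a_{q-1}` linear forms in `n + 1` variables over `K`, any `n + 1` of them linearly independent,
and `κ ≥ 0`. (The exponent `exponent(n, q, κ)` is smaller than `n + 1` for `κ < q`.) Let `f` be multiplicative and positive, of
at most polynomial growth, with `f p ≤ M p` at the large primes, and injective there. Let `G` have steps `≥ s > 0` and growth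
at most `v^d`, `θ ≥ 0` and `d exponent(n, q, κ) / (n + 1) + θ < 1`. For every `c` and `U` and all large `N`, for all `k ≤ N`
but `N / (log N)^U`, EVERY `x ∈ ℙ^n(K)` off the hyperplanes with `|H_K(x) ^ (n + 1) - G (f k)| ≤ f(k)^θ` satisfies, for ALL
`m ≥ 1`, ALL points `P` of `X_m` above `x`, over any number field `L`, ALL monomial ideals `I` and ALL finite sets `S` of primes
`(κ m - q) h(P) + ∑_{v ∈ S ∪ {∞}} (λ_I - λ_{I⁻})(P, v) ≤ d(L) + ∑_{p ∈ S} log p - c`. Euler's function and the sum of the
divisors are examples of such functions `f`, and `α v^d` with `α > 0`, `d ≥ 1` is an example of `G`. -/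
theorem result :
    (∀ (K : Type) [Field K] [NumberField K] (n q : ℕ), 1 ≤ n → n + 1 ≤ q → ∀ a : Fin q → Fin (n + 1) → K,
      (∀ I : Finset (Fin q), I.card = n + 1 → LinearIndependent K (fun i : I => a i)) →
      ∀ κ : ℝ, 0 ≤ κ →
      (κ < q → exponent n q κ < n + 1) ∧
      ∀ f : ℕ → ℕ, LM f → ∀ (G : ℕ → ℝ) (d : ℝ), Expanding G d → ∀ θ : ℝ, 0 ≤ θ →
      d * (exponent n q κ / (n + 1)) + θ < 1 → ∀ (c : ℝ) (U : ℕ), ∃ N₀ : ℕ, ∀ N : ℕ, N₀ ≤ N →
        ({k : ℕ | 1 ≤ k ∧ k ≤ N ∧ ¬ ∀ x : ℙ K (Fin (n + 1) → K), (∀ i, lin (a i) x.rep ≠ 0) →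
          |x.mulHeight ^ (n + 1) - G (f k)| ≤ (f k : ℝ) ^ θ → AllAbove a κ c x}.ncard : ℝ) ≤
            N / Real.log N ^ U) ∧
    (LM Nat.totient ∧ LM (fun m => ∑ d ∈ m.divisors, d)) ∧
    ∀ α d : ℝ, 0 < α → 1 ≤ d → Expanding (fun v => α * (v : ℝ) ^ d) d := by
  refine ⟨fun K _ _ n q hn hq a ha κ hκ => ⟨fun h => MonomialWindows.expo_lt hn hq h,
    fun f hf G d hG θ hθ h1 c U => ?_⟩, ⟨lm_totient, lm_sigma⟩, fun α d hα hd => expanding_pow hα hd⟩
  have hs : 0 ≤ exponent n q κ / (n + 1) := div_nonneg (MonomialWindows.expo_nonneg hn hq hκ) (by positivity)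
  refine keep_good (fun x : ℙ K (Fin (n + 1) → K) => ∀ i, lin (a i) x.rep ≠ 0) (AllAbove a κ c)
    (fun x => x.mulHeight ^ (n + 1)) hf hG hs hθ h1 (fun ε hε => ?_) U
  obtain ⟨C, hC⟩ := MonomialWindows.count K hn hq a ha κ (-c) ε hκ hε
  refine ⟨C, fun X hX => ?_⟩
  obtain ⟨hfin, hcard⟩ := hC X hX
  have hsub : {x : ℙ K (Fin (n + 1) → K) | ((∀ i, lin (a i) x.rep ≠ 0) ∧ ¬ AllAbove a κ c x) ∧
      x.mulHeight ^ (n + 1) ≤ X} ⊆
      {x | x ∈ (⋃ B : ℝ, exceptional a κ (-c) B) ∧ x.mulHeight ^ (n + 1) ≤ X} := by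
    rintro x ⟨⟨hx, hbad⟩, hxX⟩
    refine ⟨?_, hxX⟩
    unfold AllAbove at hbad
    push Not at hbad
    obtain ⟨m, L, i1, i2, i3, y, t, I, S, hm, ht, hy, hI, hS, hlt⟩ := hbad
    refine Set.mem_iUnion.2 ⟨Real.exp (baseHeight x), hx, le_refl _, m, L, i1, i2, i3, y, t, I, S, hm, ht, hy, hI,
      hS, ?_⟩
    linarith
  refine ⟨hfin.subset hsub, le_trans ?_ hcard⟩
  exact_mod_cast Set.ncard_le_ncard hsub hfin

end Pool.Agent.Results.MP_8865d3_nt.MultiplicativeValues
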