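import Pool.Agent.N733.TG.K
import Pool.Agent.Results.MP_7ecdd4_nt.DivisorsInWindows

/-!
# The strong `n`-conjecture near the values of multiplicative functions

Let `f` be a positive multiplicative function of at most polynomial growth such that `f p ≤ M' p` for the large primes `p`,
with different values at different large primes; for example Euler's function or the sum of the divisors. Let `n ≥ 4`,
`α > 0`, `d ≥ 1`. For all `m ≤ N` but `N / (log N)^U`

1. EVERY tuple `x` of nonzero pairwise coprime integers with sum zero whose height is within `f(m)^κ` of `α f(m)^d` satisfies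
   `max |x_j| ≤ rad (x_1 ⋯ x_n) ^ M`, if `d (3 n - 5) / ((3 n - 2) M) + κ < 1`;
2. EVERY such tuple for which the product `x_1 ⋯ x_n` has a divisor `r` within `f(m)^κ` of `α f(m)^d` and
   `max |x_j| ≤ r ^ A` satisfies `max |x_j| ≤ rad (x_1 ⋯ x_n) ^ M`, if `d A (3 n - 5) / ((3 n - 2) M) + κ < 1`.

More generally `G (f m)` takes the place of `α f(m)^d`, where `G` is any function with steps bounded below by a positive
constant and growth at most `v^d`. The values of `f` are in general taken with very large multiplicities, and so this does not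
follow from the size of the exceptional set.

Proof. Write `m = k w` where `k` is composed of the primes `≤ z = N^(1 / J)`, `J` about `log log N`. For most `m` one has
`k ≤ N^η`, and `w` is a product of at most `J` different primes. So `f(w)` is taken at most `(1 + τ)^J` times, `τ` its number of
divisors, which is at most `N^o(1)` on average, even in mean square: and the exceptional set has only `N^(1 - δ)` elements. Its
size is bounded by the starting theorem `FewExceptions` of this problem and, for the divisors, by the bound for the number of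
divisors.
-/

set_option autoImplicit false

namespace Pool.Agent.Results.MP_7ecdd4_nt.MultiplicativeValues

open Finset
open Pool.Agent.N733.TG (LM Expanding lm_totient lm_sigma keep_good keep_win_nat expanding_pow)
open Pool.Agent.Results.MP_7ecdd4_nt.DivisorsInWindows (Admissible rad height Good hcount κ_nonneg)

/-- **The strong `n`-conjecture near the values of multiplicative functions.** Let `n ≥ 4`, `M ≥ 10 / (3 n - 2)`. Let `f` be
multiplicative and positive, of at most polynomial growth, with `f p ≤ M' p` at the large primes, and injective there. Let `G`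
have steps `≥ a > 0` and growth at most `v^d`, and `κ ≥ 0`. For every `U` and all large `N`, for all `m ≤ N` but
`N / (log N)^U`: (1) if `d (3 n - 5) / ((3 n - 2) M) + κ < 1`, EVERY tuple `x` of nonzero pairwise coprime integers with sum
zero with `|max |x_j| - G (f m)| ≤ f(m)^κ` satisfies `max |x_j| ≤ rad (x_1 ⋯ x_n) ^ M`; (2) if `A > 0` and
`d A (3 n - 5) / ((3 n - 2) M) + κ < 1`, EVERY such tuple with a divisor `r ≥ 1` of `x_1 ⋯ x_n` with
`|r - G (f m)| ≤ f(m)^κ` and `max |x_j| ≤ r ^ A` satisfies `max |x_j| ≤ rad (x_1 ⋯ x_n) ^ M`. (3) Euler's function and the sum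
of the divisors are examples of such functions `f`, and `α v^d` with `α > 0`, `d ≥ 1` is an example of `G`. -/
theorem result (n : ℕ) (hn : 4 ≤ n) :
    (∀ f : ℕ → ℕ, LM f → ∀ (G : ℕ → ℝ) (d : ℝ), Expanding G d → ∀ M κ : ℝ, 10 / (3 * (n : ℝ) - 2) ≤ M → 0 ≤ κ →
      d * ((3 * (n : ℝ) - 5) / (3 * (n : ℝ) - 2) / M) + κ < 1 → ∀ U : ℕ, ∃ N₀ : ℕ, ∀ N : ℕ, N₀ ≤ N →
      ({m : ℕ | 1 ≤ m ∧ m ≤ N ∧ ¬ ∀ x : Fin n → ℤ, Admissible x → |height x - G (f m)| ≤ (f m : ℝ) ^ κ →
        height x ≤ (rad x : ℝ) ^ M}.ncard : ℝ) ≤ N / Real.log N ^ U) ∧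
    (∀ f : ℕ → ℕ, LM f → ∀ (G : ℕ → ℝ) (d : ℝ), Expanding G d → ∀ A M κ : ℝ, 0 < A → 10 / (3 * (n : ℝ) - 2) ≤ M →
      0 ≤ κ → d * (A * ((3 * (n : ℝ) - 5) / (3 * (n : ℝ) - 2) / M)) + κ < 1 → ∀ U : ℕ, ∃ N₀ : ℕ, ∀ N : ℕ, N₀ ≤ N →
      ({m : ℕ | 1 ≤ m ∧ m ≤ N ∧ ¬ ∀ r : ℕ, 1 ≤ r → |(r : ℝ) - G (f m)| ≤ (f m : ℝ) ^ κ → Good n A M r}.ncard : ℝ) ≤
        N / Real.log N ^ U) ∧
    (LM Nat.totient ∧ LM (fun m => ∑ d ∈ m.divisors, d)) ∧
    ∀ α d : ℝ, 0 < α → 1 ≤ d → Expanding (fun v => α * (v : ℝ) ^ d) d := by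
  have h4 : (4 : ℝ) ≤ n := by exact_mod_cast hn
  have hn0 : 0 < n := by omega
  have hs0 : ∀ M : ℝ, 10 / (3 * (n : ℝ) - 2) ≤ M → 0 ≤ (3 * (n : ℝ) - 5) / (3 * (n : ℝ) - 2) / M := fun M hM =>
    div_nonneg (κ_nonneg hn) (le_trans (div_nonneg (by norm_num) (by linarith)) hM)
  refine ⟨fun f hf G d hG M κ hM hκ h1 U => ?_, fun f hf G d hG A M κ hA hM hκ h1 U => ?_, ⟨lm_totient, lm_sigma⟩,
    fun α d hα hd => expanding_pow hα hd⟩
  · exact keep_good (fun x : Fin n → ℤ => Admissible x) (fun x => height x ≤ (rad x : ℝ) ^ M) height hf hG (hs0 M hM)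
      hκ h1 (fun ε hε => hcount hn hM ε hε) U
  · have hcd := Pool.Agent.R559.NP.count_div (n := n)
      (Bad := fun x : Fin n → ℤ => Admissible x ∧ ¬ height x ≤ (rad x : ℝ) ^ M)
      (fun x hx => hx.1.1) hA (fun δ hδ => hcount hn hM δ hδ)
    obtain ⟨N₀, hN₀⟩ := keep_win_nat (Pool.Agent.R559.NP.DivBad
      (fun x : Fin n → ℤ => Admissible x ∧ ¬ height x ≤ (rad x : ℝ) ^ M) A) hf hG
      (mul_nonneg hA.le (hs0 M hM)) hκ h1 (fun ε hε => by
        obtain ⟨C, hC⟩ := hcd ε hε
        refine ⟨C, fun X hX => le_trans (le_of_eq ?_) (hC X hX)⟩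
        congr!) U
    refine ⟨N₀, fun N hN => le_trans ?_ (hN₀ N hN)⟩
    have hfin : {m : ℕ | 1 ≤ m ∧ m ≤ N ∧ ∃ r : ℕ, (r = 0 ∨ r ∈ Pool.Agent.R559.NP.DivBad
        (fun x : Fin n → ℤ => Admissible x ∧ ¬ height x ≤ (rad x : ℝ) ^ M) A) ∧
        |(r : ℝ) - G (f m)| ≤ (f m : ℝ) ^ κ}.Finite := by
      apply (Set.finite_Icc 1 N).subset
      intro m hm
      exact ⟨hm.1, hm.2.1⟩
    refine Nat.cast_le.2 (Set.ncard_le_ncard ?_ hfin)
    rintro m ⟨h2, h3, h5⟩
    push Not at h5
    obtain ⟨r, hr, hrG, hbad⟩ := h5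
    refine ⟨h2, h3, r, Or.inr ?_, hrG⟩
    unfold Good at hbad
    push Not at hbad
    obtain ⟨x, hx, hd, hh, hlt⟩ := hbad
    exact ⟨x, ⟨hx, not_le.2 hlt⟩, hh, hd⟩

end Pool.Agent.Results.MP_7ecdd4_nt.MultiplicativeValues
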